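import Pool.Agent.helper387_fk.GT3

/-!
The subalgebra `E_T` of the Fomin-Kirillov algebra on six points is infinite-dimensional for the tree
`T` with edges 12, 13, 14, 25, 26, which contains none of the seven graphs `H_1, ..., H_7`.
-/

namespace Pool.Agent.Results.MP_640ac5_al.TreeCounterexample

open H387FK

attribute [local irreducible] H387FK.instRing H387FK.instAlg

/-- The seven graphs (the vertex `k` of the problem is `k - 1` here). -/
def H : Fin 7 → SimpleGraph (Fin 6) := ![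
  SimpleGraph.fromEdgeSet {s(0, 1), s(0, 2), s(0, 3), s(0, 4), s(0, 5)},
  SimpleGraph.fromEdgeSet {s(0, 1), s(1, 2), s(2, 3), s(3, 0), s(0, 4), s(0, 5)},
  SimpleGraph.fromEdgeSet {s(0, 1), s(1, 2), s(2, 3), s(3, 4), s(4, 5), s(5, 0), s(0, 3)},
  SimpleGraph.fromEdgeSet {s(0, 1), s(1, 2), s(2, 3), s(3, 4), s(4, 5), s(5, 0), s(1, 5), s(2, 4)},
  SimpleGraph.fromEdgeSet {s(0, 1), s(1, 2), s(2, 3), s(3, 4), s(4, 0), s(5, 0), s(5, 2)},
  SimpleGraph.fromEdgeSet {s(0, 1), s(0, 2), s(0, 3), s(1, 2), s(1, 3), s(0, 4), s(1, 5)},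
  SimpleGraph.fromEdgeSet {s(0, 1), s(1, 2), s(2, 3), s(3, 0), s(1, 4), s(3, 4), s(0, 5)}]

/-- The tree with edges 12, 13, 14, 25, 26 (the vertex `k` is `k - 1` here). -/
def T : SimpleGraph (Fin 6) :=
  SimpleGraph.fromEdgeSet {s(0, 1), s(0, 2), s(0, 3), s(1, 4), s(1, 5)}

/-- The adjacency of the tree as a test. -/
def tb (a b : Fin 6) : Bool :=
  decide (a = 0 ∧ (b = 1 ∨ b = 2 ∨ b = 3) ∨ b = 0 ∧ (a = 1 ∨ a = 2 ∨ a = 3) ∨
    a = 1 ∧ (b = 4 ∨ b = 5) ∨ b = 1 ∧ (a = 4 ∨ a = 5))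

theorem tb_of_adj {a b : Fin 6} (h : T.Adj a b) : tb a b = true := by
  unfold T at h
  rw [SimpleGraph.fromEdgeSet_adj] at h
  have h1 := h.1
  simp only [Set.mem_insert_iff, Set.mem_singleton_iff, Sym2.eq_iff] at h1
  unfold tb
  rw [decide_eq_true_eq]
  rcases h1 with (⟨rfl, rfl⟩ | ⟨rfl, rfl⟩) | (⟨rfl, rfl⟩ | ⟨rfl, rfl⟩) | (⟨rfl, rfl⟩ | ⟨rfl, rfl⟩) |
    (⟨rfl, rfl⟩ | ⟨rfl, rfl⟩) | (⟨rfl, rfl⟩ | ⟨rfl, rfl⟩) <;> decide

theorem no_triangle : ∀ a b c : Fin 6, tb a b = true → tb b c = true → tb c a = true → False := by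
  decide +kernel

theorem no_square : ∀ a b c d : Fin 6, a ≠ c → b ≠ d → tb a b = true → tb b c = true →
    tb c d = true → tb d a = true → False := by
  decide +kernel

theorem no_star : ∀ v a b c d : Fin 6, a ≠ b → a ≠ c → a ≠ d → b ≠ c → b ≠ d → c ≠ d →
    tb v a = true → tb v b = true → tb v c = true → tb v d = true → False := by
  decide +kernel

theorem not_contained (i : Fin 7) : ¬ (H i).IsContained T := by
  rintro ⟨φ⟩
  have hinj := φ.injective
  have hadj : ∀ a b, (H i).Adj a b → tb (φ a) (φ b) = true :=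
    fun a b h => tb_of_adj (φ.toHom.map_adj h)
  have hne : ∀ a b : Fin 6, a ≠ b → φ a ≠ φ b := fun a b h e => h (hinj e)
  fin_cases i
  · exact no_star (φ 0) (φ 1) (φ 2) (φ 3) (φ 4) (hne _ _ (by decide)) (hne _ _ (by decide))
      (hne _ _ (by decide)) (hne _ _ (by decide)) (hne _ _ (by decide)) (hne _ _ (by decide))
      (hadj _ _ (by simp [H])) (hadj _ _ (by simp [H])) (hadj _ _ (by simp [H]))
      (hadj _ _ (by simp [H]))
  · exact no_square (φ 0) (φ 1) (φ 2) (φ 3) (hne _ _ (by decide)) (hne _ _ (by decide))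
      (hadj _ _ (by simp [H])) (hadj _ _ (by simp [H])) (hadj _ _ (by simp [H]))
      (hadj _ _ (by simp [H]))
  · exact no_square (φ 0) (φ 1) (φ 2) (φ 3) (hne _ _ (by decide)) (hne _ _ (by decide))
      (hadj _ _ (by simp [H])) (hadj _ _ (by simp [H])) (hadj _ _ (by simp [H]))
      (hadj _ _ (by simp [H]))
  · exact no_triangle (φ 0) (φ 1) (φ 5)
      (hadj _ _ (by simp [H])) (hadj _ _ (by simp [H])) (hadj _ _ (by simp [H]))
  · exact no_square (φ 0) (φ 1) (φ 2) (φ 5) (hne _ _ (by decide)) (hne _ _ (by decide))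
      (hadj _ _ (by simp [H])) (hadj _ _ (by simp [H])) (hadj _ _ (by simp [H]))
      (hadj _ _ (by simp [H]))
  · exact no_triangle (φ 0) (φ 1) (φ 2)
      (hadj _ _ (by simp [H])) (hadj _ _ (by simp [H])) (hadj _ _ (by simp [H]))
  · exact no_square (φ 0) (φ 1) (φ 2) (φ 3) (hne _ _ (by decide)) (hne _ _ (by decide))
      (hadj _ _ (by simp [H])) (hadj _ _ (by simp [H])) (hadj _ _ (by simp [H]))
      (hadj _ _ (by simp [H]))

/-- The relabelling of the points. -/
def f : Fin 6 ↪ Fin 6 := ⟨![1, 2, 4, 3, 5, 0], by decide⟩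

/-- The subalgebra `E_T` is infinite-dimensional, although `T` contains no subgraph isomorphic to one
of the seven graphs. So the answer to the question is negative. -/
theorem result : ¬ Module.Finite ℚ (EG T) ∧ ∀ i : Fin 7, ¬ (H i).IsContained T := by
  refine ⟨?_, not_contained⟩
  refine H387G.T3.good.not_finite T f ?_
  intro k
  cases k
  · show T.Adj 2 0
    simp [T]
  · show T.Adj 3 0
    simp [T]
  · show T.Adj 1 0
    simp [T]
  · show T.Adj 1 4
    simp [T]
  · show T.Adj 1 5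
    simp [T]
  · show T.Adj 1 5
    simp [T]

end Pool.Agent.Results.MP_640ac5_al.TreeCounterexample
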